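import Mathlib
import Pool.Agent.W757.Q2.St
import Pool.Agent.H790R3.RB.TCJ
import Pool.Agent.H790R3.RB.TMOB
import Pool.Agent.H790R3.RB.TPQ
import Pool.Agent.H790R3.RB.TSP
import Pool.Agent.H790R3.RB.TWR

/-! Task RE-Q2GENM (subtask of helper757, MP_8f2e1c_an): Moebius coordinates in which infinity is
generic and finitely many points are finite. -/

set_option autoImplicit false

open Topology Filter Metric Set Polynomial MeasureTheory
open scoped OnePoint
open Pool.Agent.H790R3.RB (CV hF cr ND wr rt sp pr hc pol Sink Attd HypTop hF_smul cr_smul_left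
  cr_smul_right cr_self cr_comm)
open Pool.Agent.W757.QR Pool.Agent.W757.RF Pool.Agent.W757.Q2

namespace Pool.Agent.W440.RE.GENM

/-- the matrix of `z ↦ 1 / (z - w)` -/
def mm (w : ℂ) (p : ℂ × ℂ) : ℂ × ℂ := (p.2, p.1 - w * p.2)

/-- the adjugate matrix -/
def ad (w : ℂ) (p : ℂ × ℂ) : ℂ × ℂ := (-w * p.1 - p.2, -p.1)

theorem mm_ad (w : ℂ) (p : ℂ × ℂ) : mm w (ad w p) = (-1 : ℂ) • p := by
  unfold mm ad
  ext
  · simp
  · simp; ring

theorem ad_mm (w : ℂ) (p : ℂ × ℂ) : ad w (mm w p) = (-1 : ℂ) • p := by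
  unfold mm ad
  ext
  · simp; ring
  · simp

theorem mm_smul (w a : ℂ) (p : ℂ × ℂ) : mm w (a • p) = a • mm w p := by
  unfold mm
  ext
  · simp
  · simp; ring

theorem ad_smul (w a : ℂ) (p : ℂ × ℂ) : ad w (a • p) = a • ad w p := by
  unfold ad
  ext
  · simp; ring
  · simp

theorem mm_zero {w : ℂ} {p : ℂ × ℂ} (h : mm w p = 0) : p = 0 := by
  have h1 := ad_mm w p
  rw [h] at h1
  have h2 : ad w 0 = 0 := by unfold ad; ext <;> simp
  rw [h2] at h1
  exact (smul_eq_zero.1 h1.symm).resolve_left (by norm_num)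

theorem ad_zero {w : ℂ} {p : ℂ × ℂ} (h : ad w p = 0) : p = 0 := by
  have h1 := mm_ad w p
  rw [h] at h1
  have h2 : mm w 0 = 0 := by unfold mm; ext <;> simp
  rw [h2] at h1
  exact (smul_eq_zero.1 h1.symm).resolve_left (by norm_num)

theorem cr_mm (w : ℂ) (p q : ℂ × ℂ) : cr (mm w p) (mm w q) = -cr p q := by
  unfold cr mm; ring

theorem cr_ad (w : ℂ) (p q : ℂ × ℂ) : cr (ad w p) (ad w q) = -cr p q := by
  unfold cr ad; ring

/-- `mm` as a linear map -/
noncomputable def mmL (w : ℂ) : ℂ × ℂ →L[ℂ] ℂ × ℂ :=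
  (ContinuousLinearMap.snd ℂ ℂ ℂ).prod
    (ContinuousLinearMap.fst ℂ ℂ ℂ - w • ContinuousLinearMap.snd ℂ ℂ ℂ)

/-- `ad` as a linear map -/
noncomputable def adL (w : ℂ) : ℂ × ℂ →L[ℂ] ℂ × ℂ :=
  ((-w) • ContinuousLinearMap.fst ℂ ℂ ℂ - ContinuousLinearMap.snd ℂ ℂ ℂ).prod
    (-ContinuousLinearMap.fst ℂ ℂ ℂ)

theorem mmL_apply (w : ℂ) (p : ℂ × ℂ) : mmL w p = mm w p := by
  unfold mmL mm
  ext
  · simp
  · simp

theorem adL_apply (w : ℂ) (p : ℂ × ℂ) : adL w p = ad w p := by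
  unfold adL ad
  ext
  · simp
  · simp

theorem hF_ne {d : ℕ} {x : CV d} (h : ND x) {p : ℂ × ℂ} (hp : p ≠ 0) : hF x p ≠ 0 :=
  fun h0 => hp (h p h0)

theorem hF_smul_left {d : ℕ} (a : ℂ) (x : CV d) (p : ℂ × ℂ) : hF (a • x) p = a • hF x p := by
  unfold hF
  ext
  · simp only [Pi.smul_apply, smul_eq_mul, Prod.smul_mk, Finset.mul_sum]
    exact Finset.sum_congr rfl fun j _ => by ring
  · simp only [Pi.smul_apply, smul_eq_mul, Prod.smul_mk, Finset.mul_sum]
    exact Finset.sum_congr rfl fun j _ => by ring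

theorem hF_inj {d : ℕ} {x y : CV d} (h : ∀ p, hF x p = hF y p) : x = y := by
  have h1 : ∀ i, pol x i = pol y i := by
    intro i
    apply Polynomial.funext
    intro z
    have h2 := h (z, 1)
    rw [Pool.Agent.H790R3.RB.PQ.hF_one, Pool.Agent.H790R3.RB.PQ.hF_one] at h2
    fin_cases i
    · exact congrArg Prod.fst h2
    · exact congrArg Prod.snd h2
  funext r
  obtain ⟨i, j⟩ := r
  rw [← Pool.Agent.H790R3.RB.PQ.pol_coeff x i j, ← Pool.Agent.H790R3.RB.PQ.pol_coeff y i j, h1]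

/-- the Jacobian of the conjugated map -/
theorem wr_conj {d : ℕ} (hd : 2 ≤ d) (w : ℂ) (x x₁ : CV d)
    (h : ∀ p, hF x₁ p = mm w (hF x (ad w p))) (p : ℂ × ℂ) : wr x₁ p = wr x (ad w p) := by
  have hdf : ∀ q, HasFDerivAt (hF x) (fderiv ℂ (hF x) q) q := fun q => by
    have h1 := (Pool.Agent.H790R3.RB.WR.hasFDerivAt_form (fun j => x (0, j)) q).prodMk
      (Pool.Agent.H790R3.RB.WR.hasFDerivAt_form (fun j => x (1, j)) q)
    have h2 : HasFDerivAt (hF x) _ q := h1
    exact h2.differentiableAt.hasFDerivAt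
  have h1 : HasFDerivAt (hF x₁) ((mmL w).comp ((fderiv ℂ (hF x) (ad w p)).comp (adL w))) p := by
    have e : hF x₁ = fun p => mmL w (hF x (adL w p)) := by
      funext p
      rw [mmL_apply, adL_apply, h]
    rw [e]
    have h2 : HasFDerivAt (fun p => hF x (adL w p)) ((fderiv ℂ (hF x) (ad w p)).comp (adL w)) p := by
      have h3 := hdf (adL w p)
      rw [adL_apply] at h3
      exact HasFDerivAt.comp p (by rw [adL_apply]; exact h3) (adL w).hasFDerivAt
    exact (mmL w).hasFDerivAt.comp p h2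
  have h4 := (Pool.Agent.H790R3.RB.WR d x₁ hd).2.2 p (1, 0) (0, 1)
  have h5 := (Pool.Agent.H790R3.RB.WR d x hd).2.2 (ad w p) (ad w (1, 0)) (ad w (0, 1))
  rw [h1.fderiv] at h4
  simp only [ContinuousLinearMap.comp_apply, mmL_apply, adL_apply] at h4
  rw [cr_mm, h5, cr_ad] at h4
  have h6 : cr ((1 : ℂ), (0 : ℂ)) ((0 : ℂ), (1 : ℂ)) = 1 := by unfold cr; simp
  rw [h6] at h4
  linear_combination -h4

theorem SU_pol {d : ℕ} (x : CV d) (i : Fin 2) (ζ : ℂ) :
    Pool.Agent.H790R3.RB.WR.SU (fun j => x (i, j)) (ζ, 1) = (derivative (pol x i)).eval ζ := by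
  unfold Pool.Agent.H790R3.RB.WR.SU pol
  rw [derivative_sum, eval_finsetSum]
  refine Finset.sum_congr rfl fun j _ => ?_
  rw [derivative_monomial, eval_monomial]
  simp only [one_pow, mul_one]
  ring

theorem SV_pol {d : ℕ} (x : CV d) (i : Fin 2) (ζ : ℂ) :
    Pool.Agent.H790R3.RB.WR.SV (fun j => x (i, j)) (ζ, 1) =
      d * (pol x i).eval ζ - ζ * (derivative (pol x i)).eval ζ := by
  rw [← SU_pol, Pool.Agent.H790R3.RB.PQ.pol_eval]
  unfold Pool.Agent.H790R3.RB.WR.SV Pool.Agent.H790R3.RB.WR.SU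
  rw [Finset.mul_sum, Finset.mul_sum, ← Finset.sum_sub_distrib]
  refine Finset.sum_congr rfl fun j _ => ?_
  have hj : (j : ℕ) ≤ d := by have := j.2; omega
  simp only [one_pow, mul_one]
  rw [Nat.cast_sub hj]
  rcases Nat.eq_zero_or_pos (j : ℕ) with h | h
  · rw [h]; simp; ring
  · have h1 : ζ ^ (j : ℕ) = ζ * ζ ^ ((j : ℕ) - 1) := by
      rw [← pow_succ']; congr 1; omega
    rw [h1]; ring

/-- the Jacobian and the numerator of the derivative -/
theorem wr_wn {d : ℕ} (x : CV d) (ζ : ℂ) :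
    wr x (ζ, 1) = d * (wn (nu x) (de x)).eval ζ := by
  rw [Pool.Agent.H790R3.RB.WR.wr_eq, SU_pol, SU_pol, SV_pol, SV_pol]
  unfold wn nu de
  simp only [eval_sub, eval_mul]
  ring

theorem wn_ne {d : ℕ} (hd : 2 ≤ d) (x : CV d) (hx : ND x) : wn (nu x) (de x) ≠ 0 := by
  intro h
  obtain ⟨hcop, hdeg⟩ := Pool.Agent.H790R3.RB.PQ.part1 (by omega : 1 ≤ d) x hx
  have h1 : derivative (nu x) * de x = nu x * derivative (de x) := sub_eq_zero.1 h
  have h2 : (de x) ∣ derivative (de x) := by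
    have h3 : de x ∣ nu x * derivative (de x) := ⟨derivative (nu x), by rw [← h1]; ring⟩
    exact (hcop.symm).dvd_of_dvd_mul_left h3
  have h2' : (nu x) ∣ derivative (nu x) := by
    have h3 : nu x ∣ de x * derivative (nu x) := ⟨derivative (de x), by rw [mul_comm, h1]⟩
    exact hcop.dvd_of_dvd_mul_left h3
  have key : ∀ P : ℂ[X], P ∣ derivative P → P.natDegree = 0 := by
    intro P hP
    by_contra h0
    have h3 : derivative P ≠ 0 := by
      intro h4
      exact h0 (Polynomial.derivative_eq_zero.1 h4)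
    have h4 := natDegree_le_of_dvd hP h3
    have h5 := natDegree_derivative_lt h0
    omega
  have h6 := key _ h2
  have h7 := key _ h2'
  have h8 : max (nu x).natDegree (de x).natDegree = d := hdeg
  rw [h6, h7] at h8
  simp at h8
  omega

/-- the finite set of bad positions -/
theorem bad_finite {d : ℕ} (hd : 2 ≤ d) (x : CV d) (hx : ND x) (Fs : Finset (OnePoint ℂ)) :
    {w : ℂ | cr (hF x (w, 1)) (w, 1) = 0 ∨ wr x (w, 1) = 0 ∨
      (∃ q : ℂ × ℂ, q ≠ 0 ∧ wr x q = 0 ∧ cr (hF x q) (w, 1) = 0) ∨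
      (w : OnePoint ℂ) ∈ Fs}.Finite := by
  have hd1 : 1 ≤ d := by omega
  obtain ⟨hcop, hdeg⟩ := Pool.Agent.H790R3.RB.PQ.part1 hd1 x hx
  obtain ⟨-, hit, hcr, hhc, -⟩ := Pool.Agent.H790R3.RB.SP d x hd1 hx
  have f1 : {w : ℂ | cr (hF x (w, 1)) (w, 1) = 0}.Finite := by
    have hne : nu x - X * de x ≠ 0 := by
      intro h
      have h1 : nu x = X * de x := sub_eq_zero.1 h
      have h2 : de x ∣ nu x := ⟨X, by rw [h1]; ring⟩
      have h3 : IsUnit (de x) := hcop.symm.isUnit_of_dvd' dvd_rfl h2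
      have h4 : (de x).natDegree = 0 := natDegree_eq_zero_of_isUnit h3
      have h5 : (nu x).natDegree = 1 := by
        rw [h1, natDegree_mul X_ne_zero h3.ne_zero, h4, natDegree_X]
      have h8 : max (nu x).natDegree (de x).natDegree = d := hdeg
      rw [h4, h5] at h8
      simp at h8
      omega
    refine ((nu x - X * de x).roots.toFinset.finite_toSet).subset ?_
    intro w hw
    rw [mem_ofPred_eq, Pool.Agent.H790R3.RB.PQ.hF_one] at hw
    rw [Finset.mem_coe, Multiset.mem_toFinset, mem_roots hne, IsRoot, eval_sub, eval_mul, eval_X]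
    unfold cr at hw
    simp only [mul_one] at hw
    show (pol x 0).eval w - w * (pol x 1).eval w = 0
    linear_combination hw
  have hwn := wn_ne hd x hx
  have f2 : {w : ℂ | wr x (w, 1) = 0}.Finite := by
    refine ((wn (nu x) (de x)).roots.toFinset.finite_toSet).subset ?_
    intro w hw
    rw [mem_ofPred_eq, wr_wn] at hw
    rw [Finset.mem_coe, Multiset.mem_toFinset, mem_roots hwn, IsRoot]
    have hd0 : (d : ℂ) ≠ 0 := by exact_mod_cast (by omega : d ≠ 0)
    exact (mul_eq_zero.1 hw).resolve_left hd0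
  have f3 : {w : ℂ | ∃ q : ℂ × ℂ, q ≠ 0 ∧ wr x q = 0 ∧ cr (hF x q) (w, 1) = 0}.Finite := by
    have hS : (insert (pr (hF x (1, 0))) ((fun z : ℂ => pr (hF x (z, 1))) ''
        {w : ℂ | wr x (w, 1) = 0})).Finite := (f2.image _).insert _
    have hS' := hS.preimage (f := fun w : ℂ => (w : OnePoint ℂ))
      (OnePoint.coe_injective.injOn)
    refine hS'.subset ?_
    rintro w ⟨q, hq, hwq, hcq⟩
    have hw1 : ((w : ℂ), (1 : ℂ)) ≠ 0 := fun h => one_ne_zero (congrArg Prod.snd h)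
    have h1 : pr (hF x q) = pr (w, 1) := (hcr _ _ (hF_ne hx hq) hw1).2 hcq
    have h2 : pr ((w : ℂ), (1 : ℂ)) = (w : OnePoint ℂ) := by
      unfold pr
      rw [if_neg one_ne_zero, div_one]
    rw [mem_preimage, ← h2, ← h1]
    by_cases hq2 : q.2 = 0
    · left
      have hq1 : q.1 ≠ 0 := fun h => hq (Prod.ext h hq2)
      have e : q = q.1 • ((1 : ℂ), (0 : ℂ)) := by ext <;> simp [hq2]
      have h10 : ((1 : ℂ), (0 : ℂ)) ≠ 0 := fun h => one_ne_zero (congrArg Prod.fst h)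
      refine (hcr _ _ (hF_ne hx hq) (hF_ne hx h10)).2 ?_
      conv_lhs => rw [e, hF_smul]
      rw [cr_smul_left, cr_self, mul_zero]
    · right
      have e : q = q.2 • ((q.1 / q.2 : ℂ), (1 : ℂ)) := by
        ext
        · simp [mul_div_cancel₀ _ hq2]
        · simp
      have h11 : ((q.1 / q.2 : ℂ), (1 : ℂ)) ≠ 0 := fun h => one_ne_zero (congrArg Prod.snd h)
      refine ⟨q.1 / q.2, ?_, ?_⟩
      · rw [mem_ofPred_eq]
        rw [e, (Pool.Agent.H790R3.RB.WR d x hd).1] at hwq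
        exact (mul_eq_zero.1 hwq).resolve_left (pow_ne_zero _ hq2)
      · refine (hcr _ _ (hF_ne hx h11) (hF_ne hx hq)).2 ?_
        conv_lhs => rw [e, hF_smul]
        simp only [smul_eq_mul, Prod.smul_mk, mul_one]
        rw [mul_div_cancel₀ _ hq2, cr_smul_right, cr_self, mul_zero]
  have f4 : {w : ℂ | (w : OnePoint ℂ) ∈ Fs}.Finite :=
    Fs.finite_toSet.preimage OnePoint.coe_injective.injOn
  exact f1.union (f2.union (f3.union f4))

theorem task : Pool.Agent.W757.Q2.StGENM := by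
  intro d x Fs hd hx
  have hd1 : 1 ≤ d := by omega
  obtain ⟨w, hw⟩ := (bad_finite hd x hx Fs).infinite_compl.nonempty
  rw [mem_compl_iff, mem_ofPred_eq] at hw
  push Not at hw
  obtain ⟨hw1, hw2, hw3, hw4⟩ := hw
  obtain ⟨h, hh, -⟩ := Pool.Agent.H790R3.RB.MOB Pool.Agent.H790R3.RB.SP 0 1 1 (-w) (by norm_num)
  obtain ⟨cj, hcjc, hcja, hcjs, -, hcjF⟩ := Pool.Agent.H790R3.RB.CJ d
  set x₁ : CV d := cj ((0, 1), (1, -w)) x with hx₁
  set s : ℂ := (-1) ^ (d + 1) with hs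
  have hs0 : s ≠ 0 := pow_ne_zero _ (by norm_num)
  set T : CV d → CV d := fun y => s • cj ((-w, -1), (-1, 0)) y with hT
  have hh' : ∀ p : ℂ × ℂ, p ≠ 0 → h (pr p) = pr (mm w p) := by
    intro p hp
    rw [hh p hp]
    congr 1
    unfold mm
    ext
    · simp
    · simp; ring
  have hx₁F : ∀ p, hF x₁ p = mm w (hF x (ad w p)) := by
    intro p
    rw [hx₁, hcjF]
    have e : ((-w * p.1 - 1 * p.2, 0 * p.2 - 1 * p.1) : ℂ × ℂ) = ad w p := by
      unfold ad; ext <;> simp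
    simp only
    rw [e]
    unfold mm
    ext
    · simp
    · simp; ring
  have hTF : ∀ y p, hF (T y) p = s • ad w (hF y (mm w p)) := by
    intro y p
    rw [hT]
    simp only
    rw [hF_smul_left, hcjF]
    congr 1
    have e : ((0 * p.1 - -1 * p.2, -w * p.2 - -1 * p.1) : ℂ × ℂ) = mm w p := by
      unfold mm; ext
      · simp
      · simp; ring
    simp only
    rw [e]
    unfold ad
    ext
    · simp; ring
    · simp
  have hx₁ND : ND x₁ := by
    intro p hp
    rw [hx₁F] at hp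
    exact ad_zero (hx _ (mm_zero hp))
  have hTND : ∀ y, ND y → ND (T y) := by
    intro y hy p hp
    rw [hTF] at hp
    have h1 := (smul_eq_zero.1 hp).resolve_left hs0
    exact mm_zero (hy _ (ad_zero h1))
  have hSP := Pool.Agent.H790R3.RB.SP d x hd1 hx
  obtain ⟨-, -, hcr, hhc, -⟩ := hSP
  have hsp : ∀ (y : CV d), ND y → ∀ p : ℂ × ℂ, p ≠ 0 → sp y (pr p) = pr (hF y p) := by
    intro y hy p hp
    have := (Pool.Agent.H790R3.RB.SP d y hd1 hy).2.1 p hp 1
    simpa using this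
  have hprs : ∀ (a : ℂ) (p : ℂ × ℂ), a ≠ 0 → p ≠ 0 → pr (a • p) = pr p := by
    intro a p ha hp
    refine (hcr _ _ (smul_ne_zero ha hp) hp).2 ?_
    rw [cr_smul_left, cr_self, mul_zero]
  have hmmne : ∀ p : ℂ × ℂ, p ≠ 0 → mm w p ≠ 0 := fun p hp h0 => hp (mm_zero h0)
  have hadne : ∀ p : ℂ × ℂ, p ≠ 0 → ad w p ≠ 0 := fun p hp h0 => hp (ad_zero h0)
  have hwr₁ := wr_conj hd w x x₁ hx₁F
  have hd0 : (d : ℂ) ≠ 0 := by exact_mod_cast (by omega : d ≠ 0)
  refine ⟨0, 1, 1, -w, h, x₁, T, by norm_num, hh, hx₁ND, ?_, ⟨?_, ?_, ?_⟩, ?_, ?_, ?_, ?_⟩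
  · -- conjugacy
    intro z
    obtain ⟨e1, e2⟩ := hhc z
    have h1 : h (sp x z) = pr (mm w (hF x (hc z))) := hh' _ (hF_ne hx e2)
    have h2 : sp x₁ (h z) = pr (hF x₁ (mm w (hc z))) := by
      conv_lhs => rw [← e1, hh' _ e2]
      exact hsp x₁ hx₁ND _ (hmmne _ e2)
    rw [h1, h2, hx₁F, ad_mm, hF_smul, mm_smul, hprs _ _ (pow_ne_zero _ (by norm_num))
      (hmmne _ (hF_ne hx e2))]
  · -- degree of the denominator
    have h1 : (de x₁).coeff d ≠ 0 := by
      have h2 := Pool.Agent.H790R3.RB.PQ.hF_inf x₁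
      have h3 : (hF x₁ (1, 0)).2 = (pol x₁ 1).coeff d := by rw [h2]
      show (pol x₁ 1).coeff d ≠ 0
      rw [← h3, hx₁F]
      have e : ad w (1, 0) = (-1 : ℂ) • ((w, 1) : ℂ × ℂ) := by
        unfold ad; ext <;> simp
      rw [e, hF_smul, mm_smul]
      show (-1 : ℂ) ^ d * ((hF x (w, 1)).1 - w * (hF x (w, 1)).2) ≠ 0
      refine mul_ne_zero (pow_ne_zero _ (by norm_num)) ?_
      intro h4
      apply hw1
      unfold cr
      simp only [mul_one]
      linear_combination h4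
    exact natDegree_eq_of_le_of_coeff_ne_zero (Pool.Agent.H790R3.RB.PQ.pol_natDegree x₁ 1) h1
  · -- degree of the numerator of the derivative
    obtain ⟨W, hWd, hWe, hWc⟩ := (Pool.Agent.H790R3.RB.WR d x₁ hd).2.1
    have hW : W = C (d : ℂ) * wn (nu x₁) (de x₁) := by
      apply Polynomial.funext
      intro ζ
      rw [hWe, wr_wn, eval_mul, eval_C]
    have h1 : W.coeff (2 * d - 2) ≠ 0 := by
      rw [hWc, hwr₁]
      have e : ad w (1, 0) = (-1 : ℂ) • ((w, 1) : ℂ × ℂ) := by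
        unfold ad; ext <;> simp
      rw [e, (Pool.Agent.H790R3.RB.WR d x hd).1]
      exact mul_ne_zero (pow_ne_zero _ (by norm_num)) hw2
    have h2 : W.natDegree = 2 * d - 2 := natDegree_eq_of_le_of_coeff_ne_zero hWd h1
    rw [hW, natDegree_C_mul hd0] at h2
    exact h2
  · -- infinity is not a critical value
    intro ζ hζ h0
    have hζ1 : ((ζ : ℂ), (1 : ℂ)) ≠ 0 := fun h => one_ne_zero (congrArg Prod.snd h)
    have h1 : wr x₁ (ζ, 1) = 0 := by rw [wr_wn, h0, mul_zero]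
    rw [hwr₁] at h1
    refine hw3 _ (hadne _ hζ1) h1 ?_
    have h2 : (hF x₁ (ζ, 1)).2 = 0 := by
      rw [Pool.Agent.H790R3.RB.PQ.hF_one]; exact hζ
    rw [hx₁F] at h2
    have h3 : (hF x (ad w (ζ, 1))).1 - w * (hF x (ad w (ζ, 1))).2 = 0 := h2
    unfold cr
    simp only [mul_one]
    linear_combination h3
  · -- the points of `Fs`
    intro z hz h0
    obtain ⟨e1, e2⟩ := hhc z
    rw [← e1, hh' _ e2] at h0
    have h1 : (mm w (hc z)).2 = 0 := by
      by_contra h2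
      unfold pr at h0
      rw [if_neg h2] at h0
      exact OnePoint.coe_ne_infty _ h0
    have h2 : (hc z).1 - w * (hc z).2 = 0 := h1
    have hw11 : ((w : ℂ), (1 : ℂ)) ≠ 0 := fun h => one_ne_zero (congrArg Prod.snd h)
    have h3 : pr (hc z) = pr (w, 1) := by
      refine (hcr _ _ e2 hw11).2 ?_
      unfold cr
      simp only [mul_one]
      linear_combination h2
    have h4 : pr ((w : ℂ), (1 : ℂ)) = (w : OnePoint ℂ) := by
      unfold pr
      rw [if_neg one_ne_zero, div_one]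
    rw [e1, h4] at h3
    rw [h3] at hz
    exact hw4 hz
  · -- continuity
    rw [hT]
    have h1 : Continuous (fun y : CV d => cj ((-w, -1), (-1, 0)) y) :=
      hcjc.continuous.comp (Continuous.prodMk_right _)
    exact h1.const_smul s
  · apply hF_inj
    intro p
    rw [hTF, hx₁F, ad_mm, ad_mm, hF_smul]
    rw [smul_smul, smul_smul]
    have e : s * (-1) * (-1) ^ d = 1 := by
      rw [hs, pow_succ, mul_assoc ((-1 : ℂ) ^ d) (-1) (-1)]
      rw [show (-1 : ℂ) * -1 = 1 by norm_num, mul_one, ← mul_pow]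
      norm_num
    rw [e, one_smul]
  · intro y hy
    refine ⟨hTND y hy, ?_⟩
    intro z
    obtain ⟨e1, e2⟩ := hhc z
    have h1 : h (sp (T y) z) = pr (mm w (hF (T y) (hc z))) := hh' _ (hF_ne (hTND y hy) e2)
    have h2 : sp y (h z) = pr (hF y (mm w (hc z))) := by
      conv_lhs => rw [← e1, hh' _ e2]
      exact hsp y hy _ (hmmne _ e2)
    rw [h1, h2, hTF, mm_smul, mm_ad, smul_smul,
      hprs _ _ (mul_ne_zero hs0 (by norm_num)) (hF_ne hy (hmmne _ e2))]

end Pool.Agent.W440.RE.GENM
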