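import Mathlib
import Pool.Agent.W440.RE.Genm

/-! A stronger form of task RE-Q2GENM (helper757, helper342, MP_8f2e1c_an): the point which is mapped
to infinity can be chosen in any given infinite set, and the determinant is `1`. -/

set_option autoImplicit false

open Topology Filter Metric Set Polynomial MeasureTheory
open scoped OnePoint
open Pool.Agent.H790R3.RB (CV hF cr ND wr rt sp pr hc pol Sink Attd HypTop hF_smul cr_smul_left
  cr_smul_right cr_self cr_comm)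
open Pool.Agent.W757.QR Pool.Agent.W757.RF Pool.Agent.W757.Q2

namespace Pool.Agent.W440.RE.GENM2

open Pool.Agent.W440.RE.GENM (hF_ne hF_inj wr_wn wn_ne bad_finite)

/-- the matrix of `z ↦ -1 / (z - w)` -/
def mm (w : ℂ) (p : ℂ × ℂ) : ℂ × ℂ := (-p.2, p.1 - w * p.2)

/-- the inverse matrix -/
def ad (w : ℂ) (p : ℂ × ℂ) : ℂ × ℂ := (-w * p.1 + p.2, -p.1)

theorem mm_ad (w : ℂ) (p : ℂ × ℂ) : mm w (ad w p) = p := by
  unfold mm ad
  ext
  · simp
  · simp

theorem ad_mm (w : ℂ) (p : ℂ × ℂ) : ad w (mm w p) = p := by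
  unfold mm ad
  ext
  · simp
  · simp

theorem mm_smul (w a : ℂ) (p : ℂ × ℂ) : mm w (a • p) = a • mm w p := by
  unfold mm
  ext
  · simp
  · simp; ring

theorem mm_zero {w : ℂ} {p : ℂ × ℂ} (h : mm w p = 0) : p = 0 := by
  have h1 := ad_mm w p
  rw [h] at h1
  rw [← h1]
  unfold ad; ext <;> simp

theorem ad_zero {w : ℂ} {p : ℂ × ℂ} (h : ad w p = 0) : p = 0 := by
  have h1 := mm_ad w p
  rw [h] at h1
  rw [← h1]
  unfold mm; ext <;> simp

theorem cr_mm (w : ℂ) (p q : ℂ × ℂ) : cr (mm w p) (mm w q) = cr p q := by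
  unfold cr mm; ring

theorem cr_ad (w : ℂ) (p q : ℂ × ℂ) : cr (ad w p) (ad w q) = cr p q := by
  unfold cr ad; ring

/-- `mm` as a linear map -/
noncomputable def mmL (w : ℂ) : ℂ × ℂ →L[ℂ] ℂ × ℂ :=
  (-ContinuousLinearMap.snd ℂ ℂ ℂ).prod
    (ContinuousLinearMap.fst ℂ ℂ ℂ - w • ContinuousLinearMap.snd ℂ ℂ ℂ)

/-- `ad` as a linear map -/
noncomputable def adL (w : ℂ) : ℂ × ℂ →L[ℂ] ℂ × ℂ :=
  ((-w) • ContinuousLinearMap.fst ℂ ℂ ℂ + ContinuousLinearMap.snd ℂ ℂ ℂ).prod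
    (-ContinuousLinearMap.fst ℂ ℂ ℂ)

theorem mmL_apply (w : ℂ) (p : ℂ × ℂ) : mmL w p = mm w p := by
  unfold mmL mm
  ext
  · simp
  · simp

theorem adL_apply (w : ℂ) (p : ℂ × ℂ) : adL w p = ad w p := by
  unfold adL ad
  ext
  · simp
  · simp

/-- the Jacobian of the conjugated map -/
theorem wr_conj {d : ℕ} (hd : 2 ≤ d) (w : ℂ) (x x₁ : CV d)
    (h : ∀ p, hF x₁ p = mm w (hF x (ad w p))) (p : ℂ × ℂ) : wr x₁ p = wr x (ad w p) := by
  have hdf : ∀ q, HasFDerivAt (hF x) (fderiv ℂ (hF x) q) q := fun q => by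
    have h1 := (Pool.Agent.H790R3.RB.WR.hasFDerivAt_form (fun j => x (0, j)) q).prodMk
      (Pool.Agent.H790R3.RB.WR.hasFDerivAt_form (fun j => x (1, j)) q)
    have h2 : HasFDerivAt (hF x) _ q := h1
    exact h2.differentiableAt.hasFDerivAt
  have h1 : HasFDerivAt (hF x₁) ((mmL w).comp ((fderiv ℂ (hF x) (ad w p)).comp (adL w))) p := by
    have e : hF x₁ = fun p => mmL w (hF x (adL w p)) := by
      funext p
      rw [mmL_apply, adL_apply, h]
    rw [e]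
    have h2 : HasFDerivAt (fun p => hF x (adL w p)) ((fderiv ℂ (hF x) (ad w p)).comp (adL w)) p := by
      have h3 := hdf (adL w p)
      rw [adL_apply] at h3
      exact HasFDerivAt.comp p (by rw [adL_apply]; exact h3) (adL w).hasFDerivAt
    exact (mmL w).hasFDerivAt.comp p h2
  have h4 := (Pool.Agent.H790R3.RB.WR d x₁ hd).2.2 p (1, 0) (0, 1)
  have h5 := (Pool.Agent.H790R3.RB.WR d x hd).2.2 (ad w p) (ad w (1, 0)) (ad w (0, 1))
  rw [h1.fderiv] at h4
  simp only [ContinuousLinearMap.comp_apply, mmL_apply, adL_apply] at h4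
  rw [cr_mm, h5, cr_ad] at h4
  have h6 : cr ((1 : ℂ), (0 : ℂ)) ((0 : ℂ), (1 : ℂ)) = 1 := by unfold cr; simp
  rw [h6] at h4
  linear_combination -h4

/-- Moebius coordinates in which infinity is generic and is the image of a point of `S`. -/
theorem genm_mem (d : ℕ) (x : CV d) (Fs : Finset (OnePoint ℂ)) (S : Set (OnePoint ℂ))
    (hS : S.Infinite) (hd : 2 ≤ d) (hx : ND x) :
    ∃ (a b c e : ℂ) (h : OnePoint ℂ ≃ₜ OnePoint ℂ) (x₁ : CV d) (T : CV d → CV d),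
      a * e - b * c = 1 ∧ (∀ p : ℂ × ℂ, p ≠ 0 → h (pr p) = pr (a * p.1 + b * p.2, c * p.1 + e * p.2)) ∧
      ND x₁ ∧ (∀ z, h (sp x z) = sp x₁ (h z)) ∧ Ginf d (nu x₁) (de x₁) ∧
      (∀ w ∈ Fs, h w ≠ ∞) ∧ Continuous T ∧ T x₁ = x ∧
      (∀ x' : CV d, ND x' → ND (T x') ∧ ∀ z, h (sp (T x') z) = sp x' (h z)) ∧
      h.symm ∞ ∈ S := by
  have hd1 : 1 ≤ d := by omega
  obtain ⟨w, hwS, hw⟩ : ∃ w : ℂ, (w : OnePoint ℂ) ∈ S ∧ w ∉ {w : ℂ | cr (hF x (w, 1)) (w, 1) = 0 ∨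
      wr x (w, 1) = 0 ∨ (∃ q : ℂ × ℂ, q ≠ 0 ∧ wr x q = 0 ∧ cr (hF x q) (w, 1) = 0) ∨
      (w : OnePoint ℂ) ∈ Fs} := by
    by_contra hcon
    push Not at hcon
    apply hS
    have h1 : (insert ∞ ((fun z : ℂ => (z : OnePoint ℂ)) ''
        {w : ℂ | cr (hF x (w, 1)) (w, 1) = 0 ∨
      wr x (w, 1) = 0 ∨ (∃ q : ℂ × ℂ, q ≠ 0 ∧ wr x q = 0 ∧ cr (hF x q) (w, 1) = 0) ∨
      (w : OnePoint ℂ) ∈ Fs})).Finite := ((bad_finite hd x hx Fs).image _).insert _
    refine h1.subset ?_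
    intro z hz
    induction z using OnePoint.rec with
    | infty => exact mem_insert _ _
    | coe z => exact mem_insert_of_mem _ ⟨z, hcon z hz, rfl⟩
  rw [mem_ofPred_eq] at hw
  push Not at hw
  obtain ⟨hw1, hw2, hw3, hw4⟩ := hw
  obtain ⟨h, hh, -⟩ := Pool.Agent.H790R3.RB.MOB Pool.Agent.H790R3.RB.SP 0 (-1) 1 (-w) (by norm_num)
  obtain ⟨cj, hcjc, hcja, hcjs, -, hcjF⟩ := Pool.Agent.H790R3.RB.CJ d
  set x₁ : CV d := cj ((0, -1), (1, -w)) x with hx₁
  set T : CV d → CV d := fun y => cj ((-w, 1), (-1, 0)) y with hT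
  have hh' : ∀ p : ℂ × ℂ, p ≠ 0 → h (pr p) = pr (mm w p) := by
    intro p hp
    rw [hh p hp]
    congr 1
    unfold mm
    ext
    · simp
    · simp; ring
  have hx₁F : ∀ p, hF x₁ p = mm w (hF x (ad w p)) := by
    intro p
    rw [hx₁, hcjF]
    have e : ((-w * p.1 - -1 * p.2, 0 * p.2 - 1 * p.1) : ℂ × ℂ) = ad w p := by
      unfold ad; ext <;> simp
    simp only
    rw [e]
    unfold mm
    ext
    · simp
    · simp; ring
  have hTF : ∀ y p, hF (T y) p = ad w (hF y (mm w p)) := by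
    intro y p
    rw [hT]
    simp only
    rw [hcjF]
    have e : ((0 * p.1 - 1 * p.2, -w * p.2 - -1 * p.1) : ℂ × ℂ) = mm w p := by
      unfold mm; ext
      · simp
      · simp; ring
    simp only
    rw [e]
    unfold ad
    ext
    · simp
    · simp
  have hx₁ND : ND x₁ := by
    intro p hp
    rw [hx₁F] at hp
    exact ad_zero (hx _ (mm_zero hp))
  have hTND : ∀ y, ND y → ND (T y) := by
    intro y hy p hp
    rw [hTF] at hp
    exact mm_zero (hy _ (ad_zero hp))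
  have hSP := Pool.Agent.H790R3.RB.SP d x hd1 hx
  obtain ⟨-, -, hcr, hhc, -⟩ := hSP
  have hsp : ∀ (y : CV d), ND y → ∀ p : ℂ × ℂ, p ≠ 0 → sp y (pr p) = pr (hF y p) := by
    intro y hy p hp
    have := (Pool.Agent.H790R3.RB.SP d y hd1 hy).2.1 p hp 1
    simpa using this
  have hmmne : ∀ p : ℂ × ℂ, p ≠ 0 → mm w p ≠ 0 := fun p hp h0 => hp (mm_zero h0)
  have hadne : ∀ p : ℂ × ℂ, p ≠ 0 → ad w p ≠ 0 := fun p hp h0 => hp (ad_zero h0)
  have hwr₁ := wr_conj hd w x x₁ hx₁F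
  have hd0 : (d : ℂ) ≠ 0 := by exact_mod_cast (by omega : d ≠ 0)
  have hw11 : ((w : ℂ), (1 : ℂ)) ≠ 0 := fun h => one_ne_zero (congrArg Prod.snd h)
  have hprw : pr ((w : ℂ), (1 : ℂ)) = (w : OnePoint ℂ) := by
    unfold pr
    rw [if_neg one_ne_zero, div_one]
  refine ⟨0, -1, 1, -w, h, x₁, T, by norm_num, hh, hx₁ND, ?_, ⟨?_, ?_, ?_⟩, ?_, ?_, ?_, ?_, ?_⟩
  · -- conjugacy
    intro z
    obtain ⟨e1, e2⟩ := hhc z
    have h1 : h (sp x z) = pr (mm w (hF x (hc z))) := hh' _ (hF_ne hx e2)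
    have h2 : sp x₁ (h z) = pr (hF x₁ (mm w (hc z))) := by
      conv_lhs => rw [← e1, hh' _ e2]
      exact hsp x₁ hx₁ND _ (hmmne _ e2)
    rw [h1, h2, hx₁F, ad_mm]
  · -- degree of the denominator
    have h1 : (de x₁).coeff d ≠ 0 := by
      have h2 := Pool.Agent.H790R3.RB.PQ.hF_inf x₁
      have h3 : (hF x₁ (1, 0)).2 = (pol x₁ 1).coeff d := by rw [h2]
      show (pol x₁ 1).coeff d ≠ 0
      rw [← h3, hx₁F]
      have e : ad w (1, 0) = (-1 : ℂ) • ((w, 1) : ℂ × ℂ) := by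
        unfold ad; ext <;> simp
      rw [e, hF_smul, mm_smul]
      show (-1 : ℂ) ^ d * ((hF x (w, 1)).1 - w * (hF x (w, 1)).2) ≠ 0
      refine mul_ne_zero (pow_ne_zero _ (by norm_num)) ?_
      intro h4
      apply hw1
      unfold cr
      simp only [mul_one]
      linear_combination h4
    exact natDegree_eq_of_le_of_coeff_ne_zero (Pool.Agent.H790R3.RB.PQ.pol_natDegree x₁ 1) h1
  · -- degree of the numerator of the derivative
    obtain ⟨W, hWd, hWe, hWc⟩ := (Pool.Agent.H790R3.RB.WR d x₁ hd).2.1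
    have hW : W = C (d : ℂ) * wn (nu x₁) (de x₁) := by
      apply Polynomial.funext
      intro ζ
      rw [hWe, wr_wn, eval_mul, eval_C]
    have h1 : W.coeff (2 * d - 2) ≠ 0 := by
      rw [hWc, hwr₁]
      have e : ad w (1, 0) = (-1 : ℂ) • ((w, 1) : ℂ × ℂ) := by
        unfold ad; ext <;> simp
      rw [e, (Pool.Agent.H790R3.RB.WR d x hd).1]
      exact mul_ne_zero (pow_ne_zero _ (by norm_num)) hw2
    have h2 : W.natDegree = 2 * d - 2 := natDegree_eq_of_le_of_coeff_ne_zero hWd h1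
    rw [hW, natDegree_C_mul hd0] at h2
    exact h2
  · -- infinity is not a critical value
    intro ζ hζ h0
    have hζ1 : ((ζ : ℂ), (1 : ℂ)) ≠ 0 := fun h => one_ne_zero (congrArg Prod.snd h)
    have h1 : wr x₁ (ζ, 1) = 0 := by rw [wr_wn, h0, mul_zero]
    rw [hwr₁] at h1
    refine hw3 _ (hadne _ hζ1) h1 ?_
    have h2 : (hF x₁ (ζ, 1)).2 = 0 := by
      rw [Pool.Agent.H790R3.RB.PQ.hF_one]; exact hζ
    rw [hx₁F] at h2
    have h3 : (hF x (ad w (ζ, 1))).1 - w * (hF x (ad w (ζ, 1))).2 = 0 := h2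
    unfold cr
    simp only [mul_one]
    linear_combination h3
  · -- the points of `Fs`
    intro z hz h0
    obtain ⟨e1, e2⟩ := hhc z
    rw [← e1, hh' _ e2] at h0
    have h1 : (mm w (hc z)).2 = 0 := by
      by_contra h2
      unfold pr at h0
      rw [if_neg h2] at h0
      exact OnePoint.coe_ne_infty _ h0
    have h2 : (hc z).1 - w * (hc z).2 = 0 := h1
    have h3 : pr (hc z) = pr (w, 1) := by
      refine (hcr _ _ e2 hw11).2 ?_
      unfold cr
      simp only [mul_one]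
      linear_combination h2
    rw [e1, hprw] at h3
    rw [h3] at hz
    exact hw4 hz
  · -- continuity
    rw [hT]
    exact hcjc.continuous.comp (Continuous.prodMk_right _)
  · apply hF_inj
    intro p
    rw [hTF, hx₁F, ad_mm, ad_mm]
  · intro y hy
    refine ⟨hTND y hy, ?_⟩
    intro z
    obtain ⟨e1, e2⟩ := hhc z
    have h1 : h (sp (T y) z) = pr (mm w (hF (T y) (hc z))) := hh' _ (hF_ne (hTND y hy) e2)
    have h2 : sp y (h z) = pr (hF y (mm w (hc z))) := by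
      conv_lhs => rw [← e1, hh' _ e2]
      exact hsp y hy _ (hmmne _ e2)
    rw [h1, h2, hTF, mm_ad]
  · -- the preimage of infinity
    have h1 : h (w : OnePoint ℂ) = ∞ := by
      rw [← hprw, hh' _ hw11]
      unfold pr mm
      rw [if_pos (by simp)]
    rw [← h1, Homeomorph.symm_apply_apply]
    exact hwS

end Pool.Agent.W440.RE.GENM2
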