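import Mathlib
import Pool.Agent.W757.RD.St
import Pool.Agent.H790R3.RB.Basic
import Pool.Agent.H790R3.RB.TWR

/-! Task RE-ERMIN (subtask of helper757, MP_8f2e1c_an): the structural equations of
`Pool.Agent.W757.RD`. Adapted from `Pool.Agent.W757.RC.TER`, `Pool.Agent.W757.RC.TEMIN`. -/

set_option autoImplicit false

open Topology Filter Metric Set MeasureTheory

open Pool.Agent.H790R3.RB (CV hF cr ND wr rt Ix yx yc sp HypTop StWR wr_contDiff)
open Pool.Agent.W757.RD

namespace Pool.Agent.W440.RE.ERMIN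


theorem ER (hWR : StWR) : Pool.Agent.W757.RD.StER := by
  intro d n s S y hEr ζ
  have hd := S.hd
  obtain ⟨_, ⟨W, hWdeg, hWev, hWc⟩, _⟩ := hWR d (S.co (yx y)) hd
  set c := wr (S.co (yx y)) (1, 0) with hc
  set Q : Polynomial ℂ := ∏ i : Fin (2 * d - 2), (Polynomial.X - Polynomial.C (yc y i)) with hQ
  have hQm : Q.Monic := Polynomial.monic_prod_of_monic _ _ fun i _ => Polynomial.monic_X_sub_C _
  have hQd : Q.natDegree = 2 * d - 2 := by
    rw [hQ, Polynomial.natDegree_prod_of_monic _ _ fun i _ => Polynomial.monic_X_sub_C _]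
    simp
  have hQev : ∀ z : ℂ, Q.eval z = ∏ i : Fin (2 * d - 2), (z - yc y i) := by
    intro z
    rw [hQ, Polynomial.eval_prod]
    simp
  set D : Polynomial ℂ := W - Polynomial.C c * Q with hD
  have hDdeg : D.natDegree ≤ 2 * d - 2 := by
    refine (Polynomial.natDegree_sub_le _ _).trans (max_le hWdeg ?_)
    exact (Polynomial.natDegree_C_mul_le _ _).trans hQd.le
  have hDc : D.coeff (2 * d - 2) = 0 := by
    rw [hD, Polynomial.coeff_sub, Polynomial.coeff_C_mul, hWc]
    have : Q.coeff (2 * d - 2) = 1 := by rw [← hQd]; exact hQm.coeff_natDegree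
    rw [this, mul_one, sub_self]
  have hDev : ∀ z : ℂ, D.eval z = wr (S.co (yx y)) (z, 1) - c * ∏ i : Fin (2 * d - 2), (z - yc y i) := by
    intro z
    rw [hD, Polynomial.eval_sub, Polynomial.eval_mul, Polynomial.eval_C, hWev, hQev]
  have hlt : D.natDegree < Fintype.card (Fin (2 * d - 2)) := by
    rw [Fintype.card_fin]
    refine lt_of_le_of_ne hDdeg fun h => ?_
    have h1 : D.leadingCoeff = 0 := by rw [Polynomial.leadingCoeff, h, hDc]
    rw [Polynomial.leadingCoeff_eq_zero] at h1
    rw [h1, Polynomial.natDegree_zero] at h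
    omega
  have hD0 : D = 0 := by
    refine Polynomial.eq_zero_of_natDegree_lt_card_of_eval_eq_zero D
      (f := fun j : Fin (2 * d - 2) => ((j : ℕ) : ℂ)) ?_ ?_ hlt
    · intro i j hij
      exact Fin.ext (Nat.cast_injective hij)
    · intro j
      rw [hDev]
      exact hEr j
  have := hDev ζ
  rw [hD0, Polynomial.eval_zero] at this
  exact (sub_eq_zero.mp this.symm)


namespace EMIN

/-- the Lagrange type matrix `∏_{i' ≠ i} (j - c i')` is invertible -/
theorem lag {m : ℕ} (c : Fin m → ℂ) (hc : Function.Injective c) (W : ℂ) (hW : W ≠ 0) :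
    (Matrix.of fun j i : Fin m =>
      W * ∏ i' ∈ Finset.univ.erase i, (((j : ℕ) : ℂ) - c i')).det ≠ 0 := by
  intro h0
  obtain ⟨a, ha, hMa⟩ := Matrix.exists_mulVec_eq_zero_iff.2 h0
  apply ha
  -- the polynomial
  set q : Polynomial ℂ :=
    ∑ i : Fin m, Polynomial.C (a i) *
      ∏ i' ∈ Finset.univ.erase i, (Polynomial.X - Polynomial.C (c i')) with hq
  have hev : ∀ z : ℂ, q.eval z = ∑ i : Fin m, a i * ∏ i' ∈ Finset.univ.erase i, (z - c i') := by
    intro z
    simp [hq, Polynomial.eval_finsetSum, Polynomial.eval_prod]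
  rcases Nat.eq_zero_or_pos m with hm | hm
  · subst hm
    funext i
    exact i.elim0
  have hdeg : q.natDegree < Fintype.card (Fin m) := by
    rw [Fintype.card_fin]
    refine lt_of_le_of_lt (Polynomial.natDegree_sum_le_of_forall_le (n := m - 1) _ _ ?_) (by omega)
    intro i _
    refine le_trans (Polynomial.natDegree_C_mul_le _ _) ?_
    refine le_trans (Polynomial.natDegree_prod_le _ _) ?_
    refine le_trans (Finset.sum_le_sum (g := fun _ => 1) fun i' _ => ?_) ?_
    · exact Polynomial.natDegree_X_sub_C_le _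
    · simp [Finset.card_erase_of_mem]
  have hq0 : q = 0 := by
    refine Polynomial.eq_zero_of_natDegree_lt_card_of_eval_eq_zero q
      (f := fun j : Fin m => ((j : ℕ) : ℂ)) ?_ ?_ hdeg
    · intro j j' hjj
      have hjj' : ((j : ℕ) : ℂ) = ((j' : ℕ) : ℂ) := hjj
      have : (j : ℕ) = (j' : ℕ) := by exact_mod_cast hjj'
      exact Fin.ext this
    · intro j
      have h1 := congrFun hMa j
      simp only [Matrix.mulVec, dotProduct, Matrix.of_apply, Pi.zero_apply] at h1
      rw [hev]
      have h2 : W * ∑ i : Fin m, a i * ∏ i' ∈ Finset.univ.erase i, (((j : ℕ) : ℂ) - c i') = 0 := by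
        rw [← h1, Finset.mul_sum]
        refine Finset.sum_congr rfl fun i _ => ?_
        ring
      exact (mul_eq_zero.1 h2).resolve_left hW
  funext i
  have h3 := hev (c i)
  rw [hq0, Polynomial.eval_zero, Finset.sum_eq_single i] at h3
  · have h4 : ∏ i' ∈ Finset.univ.erase i, (c i - c i') ≠ 0 := by
      refine Finset.prod_ne_zero_iff.2 fun i' hi' => ?_
      rw [Finset.mem_erase] at hi'
      exact sub_ne_zero.2 fun h => hi'.1 (hc h).symm
    exact (mul_eq_zero.1 h3.symm).resolve_right h4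
  · intro i₁ _ hi₁
    have : ∏ i' ∈ Finset.univ.erase i₁, (c i - c i') = 0 :=
      Finset.prod_eq_zero (Finset.mem_erase.2 ⟨hi₁.symm, Finset.mem_univ i⟩) (sub_self _)
    rw [this, mul_zero]
  · intro h
    exact absurd (Finset.mem_univ i) h

end EMIN

theorem EMINt : Pool.Agent.W757.RD.StEMIN := by
  intro d n s S y hy hinj
  have hW : wr (S.co (yx y)) (1, 0) ≠ 0 := S.hwr _ hy
  classical
  refine ⟨fun i => Sum.inr (Sum.inl i), ?_⟩
  have key : ∀ j i : Fin (2 * d - 2),
      fderiv ℂ (S.Er j) y (Pi.single (Sum.inr (Sum.inl i)) 1) =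
        wr (S.co (yx y)) (1, 0) * ∏ i' ∈ Finset.univ.erase i, (((j : ℕ) : ℂ) - yc y i') := by
    intro j i
    -- differentiability
    have hyxd : Differentiable ℂ (fun y : Ix d n s → ℂ => yx y) := by
      unfold yx
      fun_prop
    have hycd : ∀ i', Differentiable ℂ (fun y : Ix d n s → ℂ => yc y i') := by
      intro i'
      unfold yc
      fun_prop
    have hcod : DifferentiableAt ℂ (fun y : Ix d n s → ℂ => S.co (yx y)) y := by
      have h1 : DifferentiableAt ℂ S.co (yx y) :=
        (S.hco (yx y) hy).differentiableAt (S.hU.mem_nhds hy)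
      exact DifferentiableAt.comp y h1 hyxd.differentiableAt
    have hwr : ∀ p : ℂ × ℂ, DifferentiableAt ℂ (fun y : Ix d n s → ℂ => wr (S.co (yx y)) p) y := by
      intro p
      have h1 : Differentiable ℂ (fun q : CV d × (ℂ × ℂ) => wr q.1 q.2) :=
        (wr_contDiff d 1).differentiable (by norm_num)
      have h2 : DifferentiableAt ℂ (fun y : Ix d n s → ℂ => ((S.co (yx y), p) : CV d × (ℂ × ℂ))) y :=
        hcod.prodMk (differentiableAt_const p)
      exact DifferentiableAt.comp (g := fun q : CV d × (ℂ × ℂ) => wr q.1 q.2)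
        (f := fun y : Ix d n s → ℂ => ((S.co (yx y), p) : CV d × (ℂ × ℂ))) y (h1 _) h2
    have hprod : DifferentiableAt ℂ (fun y : Ix d n s → ℂ =>
        ∏ i' : Fin (2 * d - 2), (((j : ℕ) : ℂ) - yc y i')) y := by
      have h1 : ContDiff ℂ 1 (fun y : Ix d n s → ℂ =>
        ∏ i' : Fin (2 * d - 2), (((j : ℕ) : ℂ) - yc y i')) := by
        refine contDiff_prod fun i' _ => ?_
        exact contDiff_const.sub (contDiff_apply ℂ ℂ (Sum.inr (Sum.inl i') : Ix d n s))
      have this := h1.differentiable (by norm_num)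
      exact this.differentiableAt
    have hEr : DifferentiableAt ℂ (S.Er j) y := by
      unfold Sys.Er
      exact (hwr _).sub ((hwr _).mul hprod)
    -- derivative along the line
    set v : Ix d n s → ℂ := Pi.single (Sum.inr (Sum.inl i)) 1 with hv
    have hline : HasDerivAt (fun t : ℂ => y + t • v) v 0 := by
      have h1 : HasDerivAt (fun t : ℂ => t • v) ((1 : ℂ) • v) 0 :=
        (hasDerivAt_id (0 : ℂ)).smul_const v
      rw [one_smul] at h1
      exact h1.const_add y
    have hcomp : HasDerivAt (fun t : ℂ => S.Er j (y + t • v)) (fderiv ℂ (S.Er j) y v) 0 := by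
      have h1 : HasFDerivAt (S.Er j) (fderiv ℂ (S.Er j) y) (y + (0 : ℂ) • v) := by
        rw [zero_smul, add_zero]
        exact hEr.hasFDerivAt
      exact h1.comp_hasDerivAt (0 : ℂ) hline
    have hyxl : ∀ t : ℂ, yx (y + t • v) = yx y := by
      intro t
      funext k
      simp [yx, hv]
    have hycl : ∀ (t : ℂ) (i' : Fin (2 * d - 2)), yc (y + t • v) i' =
        yc y i' + if i' = i then t else 0 := by
      intro t i'
      by_cases h : i' = i
      · subst h
        simp [yc, hv]
      · simp [yc, hv, h]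
    have hform : (fun t : ℂ => S.Er j (y + t • v)) = fun t : ℂ =>
        wr (S.co (yx y)) (((j : ℕ) : ℂ), 1) -
          wr (S.co (yx y)) (1, 0) * (((((j : ℕ) : ℂ) - yc y i) - t) *
            ∏ i' ∈ Finset.univ.erase i, (((j : ℕ) : ℂ) - yc y i')) := by
      funext t
      unfold Sys.Er
      rw [hyxl]
      congr 2
      rw [← Finset.mul_prod_erase Finset.univ _ (Finset.mem_univ i)]
      congr 1
      · rw [hycl]
        simp
        ring
      · refine Finset.prod_congr rfl fun i' hi' => ?_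
        rw [hycl, if_neg (Finset.ne_of_mem_erase hi'), add_zero]
    have hder : HasDerivAt (fun t : ℂ => S.Er j (y + t • v))
        (wr (S.co (yx y)) (1, 0) * ∏ i' ∈ Finset.univ.erase i, (((j : ℕ) : ℂ) - yc y i')) 0 := by
      rw [hform]
      have h1 : HasDerivAt (fun t : ℂ => (((j : ℕ) : ℂ) - yc y i) - t) (-1) 0 := by
        simpa using (hasDerivAt_id (0 : ℂ)).const_sub (((j : ℕ) : ℂ) - yc y i)
      have h2 := ((h1.mul_const (∏ i' ∈ Finset.univ.erase i, (((j : ℕ) : ℂ) - yc y i'))).const_mul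
        (wr (S.co (yx y)) (1, 0))).const_sub (wr (S.co (yx y)) (((j : ℕ) : ℂ), 1))
      exact h2.congr_deriv (by ring)
    exact hcomp.unique hder
  have hM : (Matrix.of fun j c : Fin (2 * d - 2) =>
      fderiv ℂ (S.Er j) y (Pi.single ((fun i => Sum.inr (Sum.inl i)) c) 1)) =
      Matrix.of fun j i : Fin (2 * d - 2) =>
        wr (S.co (yx y)) (1, 0) * ∏ i' ∈ Finset.univ.erase i, (((j : ℕ) : ℂ) - yc y i') := by
    ext j i
    simp only [Matrix.of_apply]
    exact key j i
  have hdet := EMIN.lag (yc y) hinj (wr (S.co (yx y)) (1, 0)) hW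
  rw [← hM] at hdet
  convert hdet using 1


theorem task : Pool.Agent.W757.RD.StER ∧ Pool.Agent.W757.RD.StEMIN :=
  ⟨ER Pool.Agent.H790R3.RB.WR, EMINt⟩

end Pool.Agent.W440.RE.ERMIN
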