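import Mathlib
import Pool.Agent.W757.RD.St
import Pool.Agent.H790R3.RB.Basic
import Pool.Agent.Helper540.Holo

/-! Task RE-LAM (subtask of helper757, MP_8f2e1c_an): multipliers and return maps of the systems
`Pool.Agent.W757.RD.Sys`. Adapted from `Pool.Agent.W757.RC.TLAM`. -/

set_option autoImplicit false

open Topology Filter Metric Set MeasureTheory

open Pool.Agent.H790R3.RB (CV hF cr ND wr rt Ix yx yc sp HypTop)
open Pool.Agent.W757.RD

namespace Pool.Agent.W440.RE.LAM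

section general

variable {E : Type} [NormedAddCommGroup E] [NormedSpace ℂ E]

/-- partial derivative in the last variable -/
noncomputable def pd (H : E × ℂ → ℂ) (q : E × ℂ) : ℂ := fderiv ℂ H q ((0 : E), (1 : ℂ))

theorem pd_diff {H : E × ℂ → ℂ} {O : Set (E × ℂ)} (hO : IsOpen O) (hH : DifferentiableOn ℂ H O) :
    DifferentiableOn ℂ (pd H) O :=
  Pool.Agent.Helper540.differentiableOn_fderiv_apply hO hH _

theorem pd_eq {H : E × ℂ → ℂ} {O : Set (E × ℂ)} (hO : IsOpen O) (hH : DifferentiableOn ℂ H O)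
    (x : E) (z : ℂ) (hq : (x, z) ∈ O) : deriv (fun w => H (x, w)) z = pd H (x, z) := by
  have h1 : HasFDerivAt H (fderiv ℂ H (x, z)) (x, z) :=
    (hH.differentiableAt (hO.mem_nhds hq)).hasFDerivAt
  have h2 : HasDerivAt (fun w : ℂ => (x, w)) ((0 : E), (1 : ℂ)) z :=
    (hasDerivAt_const z x).prodMk (hasDerivAt_id z)
  exact (h1.comp_hasDerivAt z h2).deriv

end general

variable {d n s : ℕ} (S : Sys d n s)

theorem hk_eq (k : Fin s) (x : Fin n → ℂ) (hx : x ∈ S.U) (z : ℂ) (hz : ‖z‖ < (S.r₀ k)) :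
    ‖S.hk k x z‖ ≤ S.θ * ‖z‖ ∧
      ∃ a : ℂ, a ≠ 0 ∧ (S.F x)^[S.per k] (S.cht k x z) = a • S.cht k x (S.hk k x z) := by
  obtain ⟨a, z', ha, hz', h⟩ := S.contr x hx k z hz
  have e : S.hk k x z = z' := by
    unfold Sys.hk Sys.F Sys.cht
    rw [h]
    simp only [Prod.smul_fst, Prod.smul_snd, smul_eq_mul, mul_one]
    rw [mul_div_cancel_left₀ _ ha]
    ring
  rw [e]
  exact ⟨hz', a, ha, h⟩

theorem hk_diff (k : Fin s) :
    DifferentiableOn ℂ (fun q : (Fin n → ℂ) × ℂ => S.hk k q.1 q.2) (S.U ×ˢ ball 0 (S.r₀ k)) := by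
  have hm1 : MapsTo (fun q : (Fin n → ℂ) × ℂ => q.1) (S.U ×ˢ ball (0 : ℂ) (S.r₀ k)) S.U :=
    fun q hq => hq.1
  have hco : DifferentiableOn ℂ (fun q : (Fin n → ℂ) × ℂ => S.co q.1) (S.U ×ˢ ball 0 (S.r₀ k)) :=
    S.hco.comp differentiable_fst.differentiableOn hm1
  have hch : DifferentiableOn ℂ (fun q : (Fin n → ℂ) × ℂ => S.cht k q.1 q.2)
      (S.U ×ˢ ball 0 (S.r₀ k)) := by
    have hb : DifferentiableOn ℂ (fun q : (Fin n → ℂ) × ℂ => S.b k q.1) (S.U ×ˢ ball 0 (S.r₀ k)) :=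
      (S.hb k).comp differentiable_fst.differentiableOn hm1
    exact (hb.add differentiable_snd.differentiableOn).prodMk (differentiableOn_const (1 : ℂ))
  have hG : DifferentiableOn ℂ
      (fun q : (Fin n → ℂ) × ℂ => (S.F q.1)^[S.per k] (S.cht k q.1 q.2)) (S.U ×ˢ ball 0 (S.r₀ k)) :=
    (Pool.Agent.H790R3.RB.hF_iter_differentiable d (S.per k)).comp_differentiableOn
      (hco.prodMk hch)
  have hne : ∀ q ∈ (S.U ×ˢ ball (0 : ℂ) (S.r₀ k)), ∃ a : ℂ, a ≠ 0 ∧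
      (S.F q.1)^[S.per k] (S.cht k q.1 q.2) = a • S.cht k q.1 (S.hk k q.1 q.2) := by
    intro q hq
    have hz : ‖q.2‖ < (S.r₀ k) := by simpa using hq.2
    exact (hk_eq S k q.1 hq.1 q.2 hz).2
  have e : (fun q : (Fin n → ℂ) × ℂ => S.hk k q.1 q.2) = fun q =>
      ((S.F q.1)^[S.per k] (S.cht k q.1 q.2)).1 /
        ((S.F q.1)^[S.per k] (S.cht k q.1 q.2)).2 - S.b k q.1 := rfl
  rw [e]
  simp only [div_eq_mul_inv]
  refine (hG.fst.mul (hG.snd.inv ?_)).sub ((S.hb k).comp differentiable_fst.differentiableOn hm1)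
  intro q hq
  obtain ⟨a, ha, h⟩ := hne q hq
  rw [h]
  simpa [Sys.cht] using ha

theorem opn (k : Fin s) : IsOpen (S.U ×ˢ ball (0 : ℂ) (S.r₀ k)) := S.hU.prod isOpen_ball

theorem mem0 (k : Fin s) {x : Fin n → ℂ} (hx : x ∈ S.U) :
    (x, (0 : ℂ)) ∈ S.U ×ˢ ball (0 : ℂ) (S.r₀ k) :=
  ⟨hx, mem_ball_self (S.hr₀ k)⟩

theorem lam_eq (k : Fin s) (x : Fin n → ℂ) (hx : x ∈ S.U) :
    S.lam k x = pd (fun q : (Fin n → ℂ) × ℂ => S.hk k q.1 q.2) (x, 0) := by
  rw [← pd_eq (opn S k) (hk_diff S k) x 0 (mem0 S k hx)]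
  rfl

theorem lam_diff (k : Fin s) : DifferentiableOn ℂ (S.lam k) S.U := by
  have h1 := pd_diff (opn S k) (hk_diff S k)
  have h2 : DifferentiableOn ℂ (fun x : Fin n → ℂ =>
      pd (fun q : (Fin n → ℂ) × ℂ => S.hk k q.1 q.2) (x, 0)) S.U :=
    h1.comp (differentiable_id.prodMk (differentiable_const (0 : ℂ))).differentiableOn
      (fun x hx => mem0 S k hx)
  exact h2.congr fun x hx => lam_eq S k x hx

theorem lam_le (k : Fin s) (x : Fin n → ℂ) (hx : x ∈ S.U) : ‖S.lam k x‖ ≤ S.θ := by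
  unfold Sys.lam
  refine norm_deriv_le_of_lip' S.hθ0 ?_
  have h0 : ball (0 : ℂ) (S.r₀ k) ∈ 𝓝 (0 : ℂ) := ball_mem_nhds 0 (S.hr₀ k)
  have e0 : S.hk k x 0 = 0 := by
    have := (hk_eq S k x hx 0 (by simpa using S.hr₀ k)).1
    rw [norm_zero, mul_zero] at this
    exact norm_le_zero_iff.1 this
  filter_upwards [h0] with z hz
  rw [e0, sub_zero, sub_zero]
  exact (hk_eq S k x hx z (by simpa using hz)).1

theorem task : Pool.Agent.W757.RD.StLAM := by
  intro d n s S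
  exact ⟨lam_diff S, lam_le S, hk_diff S, hk_eq S⟩

end Pool.Agent.W440.RE.LAM
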