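import Mathlib
import Pool.Agent.W757.RD.St
import Pool.Agent.H790R3.RB.Basic

/-! Task RE-NC (subtask of helper757, MP_8f2e1c_an): the parameter is not constant along a disc.
Adapted from `Pool.Agent.W757.RC.TNC`. -/

set_option autoImplicit false

open Topology Filter Metric Set MeasureTheory

open Pool.Agent.H790R3.RB (CV hF cr ND wr rt Ix yx yc sp HypTop)
open Pool.Agent.W757.RD

namespace Pool.Agent.W440.RE.NC

theorem task (hER : Pool.Agent.W757.RD.StER) : Pool.Agent.W757.RD.StNC := by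
  intro d n s S KK A ks ls τ γ Fh hτ hγ hder hadm hA
  by_contra hcon
  push Not at hcon
  have h0 : (0 : ℂ) ∈ ball (0 : ℂ) τ := mem_ball_self hτ
  have hW : wr (S.co (yx (γ 0))) (1, 0) ≠ 0 := S.hwr _ (hadm 0 h0).1.xU
  -- the critical points are constant
  have hyc : ∀ i, ∀ t ∈ ball (0 : ℂ) τ, yc (γ t) i = yc (γ 0) i := by
    intro i t ht
    have hfin : (Set.range (yc (γ 0))).Finite := Set.finite_range _
    have hdisc : IsDiscrete (Set.range (yc (γ 0))) := hfin.isDiscrete
    have hmaps : MapsTo (fun t => yc (γ t) i) (ball (0 : ℂ) τ) (Set.range (yc (γ 0))) := by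
      intro u hu
      have h1 := hER d n s S (γ u) (hadm u hu).1.crit (yc (γ u) i)
      have h2 := hER d n s S (γ 0) (hadm 0 h0).1.crit (yc (γ u) i)
      rw [hcon u hu] at h1
      have h3 : ∏ j : Fin (2 * d - 2), (yc (γ u) i - yc (γ u) j) = 0 :=
        Finset.prod_eq_zero (Finset.mem_univ i) (sub_self _)
      rw [h3, mul_zero] at h1
      rw [h1] at h2
      have h4 := (mul_eq_zero.1 h2.symm).resolve_left hW
      obtain ⟨j, _, hj⟩ := Finset.prod_eq_zero_iff.1 h4
      exact ⟨j, (sub_eq_zero.1 hj).symm⟩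
    have hcont : ContinuousOn (fun t => yc (γ t) i) (ball (0 : ℂ) τ) := by
      have h1 := hγ.continuousOn
      rw [continuousOn_pi] at h1
      exact h1 (Sum.inr (Sum.inl i))
    exact (convex_ball (0 : ℂ) τ).isPreconnected.constant_of_mapsTo hdisc hcont hmaps ht h0
  have hpc : ∀ i, ∀ t ∈ ball (0 : ℂ) τ, pc (γ t) i = pc (γ 0) i := by
    intro i t ht
    cases i with
    | inl i => exact hyc i t ht
    | inr j => rfl
  have hyk : ∀ k : Fin s, ∀ t ∈ ball (0 : ℂ) τ, ys (γ t) k = ys (γ 0) k := by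
    intro k t ht
    obtain ⟨i, hi, hik, hF⟩ := hA k
    have h1 := (hadm t ht).2 i hi
    have h2 := (hadm 0 h0).2 i hi
    rw [hcon t ht, hpc i t ht] at h1
    have h3 := (hadm t ht).1.kap0 (ks i)
    have h4 := (hadm 0 h0).1.kap0 (ks i)
    rw [div_eq_iff h3] at h1
    rw [div_eq_iff h4] at h2
    rw [h1] at h2
    have h5 := mul_left_cancel₀ hF h2
    rw [hik] at h5
    exact h5
  have hconst : ∀ t ∈ ball (0 : ℂ) τ, γ t = γ 0 := by
    intro t ht
    funext a
    rcases a with i | i | k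
    · exact congrFun (hcon t ht) i
    · exact hyc i t ht
    · exact hyk k t ht
  apply hder
  have h1 : γ =ᶠ[𝓝 0] fun _ => γ 0 := by
    filter_upwards [isOpen_ball.mem_nhds h0] with t ht
    exact hconst t ht
  rw [h1.deriv_eq, deriv_const]

end Pool.Agent.W440.RE.NC
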