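import Mathlib
import Pool.Agent.W757.RD.St
import Pool.Agent.H790R3.RB.Basic
import Pool.Agent.H790R3.RB.TWR
import Pool.Agent.H790R3.RB.TLA

/-! Task RE-NU (subtask of helper757, MP_8f2e1c_an): maximal configurations. Adapted from
`Pool.Agent.W757.RC.TNU`, `Pool.Agent.W757.RC.TALLC`. -/

set_option autoImplicit false

open Topology Filter Metric Set MeasureTheory

open Pool.Agent.H790R3.RB (CV hF cr ND wr rt Ix yx yc sp HypTop StLA StWR hF_iter_smul)
open Pool.Agent.W757.RD

namespace Pool.Agent.W440.RE.NU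

theorem NU (hLA : StLA) : Pool.Agent.W757.RD.StNU := by
  intro d n s l S KK e A ks ls R y hgood hmax i₀ hi₀ k m hInC
  obtain ⟨hadm, sel, col, hdet⟩ := hgood
  set i : Pt d := Sum.inl i₀ with hidef
  have hi : i ∉ A := hi₀
  have hcard : A.card < (insert i A).card := by
    rw [Finset.card_insert_of_notMem hi]
    exact Nat.lt_succ_self _
  refine hmax (insert i A) (Function.update ks i k) (Function.update ls i (m % S.per k))
    (Finset.subset_insert i A) hcard
    ⟨⟨hadm.xU, hadm.lam0, hadm.kap0, hadm.crit, ?_, ?_⟩, ?_⟩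
  · intro i' hi'
    by_cases h : i' = i
    · subst h
      rw [Function.update_self, Function.update_self]
      exact Nat.mod_lt _ (S.hper k)
    · rw [Function.update_of_ne h, Function.update_of_ne h]
      exact hadm.lsp i' ((Finset.mem_insert.1 hi').resolve_left h)
  · intro i' hi'
    by_cases h : i' = i
    · subst h
      rw [Function.update_self, Function.update_self]
      refine ⟨hadm.xU, hadm.lam0 k, m / S.per k, ?_⟩
      rw [← Function.iterate_add_apply, Nat.div_add_mod]
      exact hInC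
    · rw [Function.update_of_ne h, Function.update_of_ne h]
      exact hadm.att i' ((Finset.mem_insert.1 hi').resolve_left h)
  · obtain ⟨col', hcol'⟩ := hLA (Ix d n s) (Fin (2 * d - 2)) (Fin R)
      (fun j c => fderiv ℂ (S.Er j) y (Pi.single c 1))
      (fun i c => fderiv ℂ (S.Gr KK e A ks ls (sel i)) y (Pi.single c 1)) col (by
        convert hdet using 2
        ext a c
        rcases a with a | a <;> rfl)
    refine ⟨fun a => a.elim0, Sum.elim col' (fun a => a.elim0), ?_⟩
    have e1 : S.Mx KK e (insert i A) (Function.update ks i k)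
        (Function.update ls i (m % S.per k)) (fun a : Fin 0 => a.elim0)
        (Sum.elim col' (fun a => a.elim0)) y =
        (Matrix.of fun j c : Fin (2 * d - 2) =>
          fderiv ℂ (S.Er j) y (Pi.single (col' c) 1)).submatrix
          (Equiv.sumEmpty (Fin (2 * d - 2)) (Fin 0)) (Equiv.sumEmpty (Fin (2 * d - 2)) (Fin 0)) := by
      ext a c
      rcases a with a | a
      · rcases c with c | c
        · rfl
        · exact c.elim0
      · exact a.elim0
    rw [e1, Matrix.det_submatrix_equiv_self]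
    exact hcol'

theorem ALLC (hER : Pool.Agent.W757.RD.StER) (hWR : StWR) : Pool.Agent.W757.RD.StALLC := by
  intro d n s S ks ls y hA c hc hwr
  have hw0 : wr (S.co (yx y)) (1, 0) ≠ 0 := S.hwr _ hA.xU
  obtain ⟨hhom, -, -⟩ := hWR d (S.co (yx y)) S.hd
  by_cases h2 : c.2 = 0
  · exfalso
    have h1 : c.1 ≠ 0 := fun h => hc (Prod.ext h h2)
    have e : c = c.1 • ((1, 0) : ℂ × ℂ) := by
      apply Prod.ext
      · simp
      · simp [h2]
    rw [e, hhom] at hwr
    exact mul_ne_zero (pow_ne_zero _ h1) hw0 hwr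
  · set ζ : ℂ := c.1 / c.2 with hζ
    have e : c = c.2 • ((ζ, 1) : ℂ × ℂ) := by
      apply Prod.ext
      · simp [hζ, mul_div_cancel₀ _ h2]
      · simp
    have hwr' : wr (S.co (yx y)) (ζ, 1) = 0 := by
      rw [e, hhom] at hwr
      exact (mul_eq_zero.mp hwr).resolve_left (pow_ne_zero _ h2)
    rw [hER d n s S y hA.crit ζ] at hwr'
    have hprod := (mul_eq_zero.mp hwr').resolve_left hw0
    obtain ⟨i, -, hi⟩ := Finset.prod_eq_zero_iff.mp hprod
    have hζi : ζ = yc y i := sub_eq_zero.mp hi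
    obtain ⟨-, -, N, a, z, ha, hz, hN⟩ := hA.att (Sum.inl i) (Finset.mem_univ _)
    refine ⟨ks (Sum.inl i), S.per (ks (Sum.inl i)) * N + ls (Sum.inl i),
      c.2 ^ (d ^ (S.per (ks (Sum.inl i)) * N + ls (Sum.inl i))) * a, z,
      mul_ne_zero (pow_ne_zero _ h2) ha, hz, ?_⟩
    have h3 : (S.F (yx y))^[S.per (ks (Sum.inl i)) * N + ls (Sum.inl i)] (ζ, 1) =
        a • S.cht (ks (Sum.inl i)) (yx y) z := by
      rw [Function.iterate_add_apply, hζi]
      exact hN
    have h4 : (S.F (yx y))^[S.per (ks (Sum.inl i)) * N + ls (Sum.inl i)] (c.2 • ((ζ, 1) : ℂ × ℂ)) =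
        c.2 ^ (d ^ (S.per (ks (Sum.inl i)) * N + ls (Sum.inl i))) •
          (S.F (yx y))^[S.per (ks (Sum.inl i)) * N + ls (Sum.inl i)] (ζ, 1) :=
      hF_iter_smul _ _ _ _
    calc (S.F (yx y))^[S.per (ks (Sum.inl i)) * N + ls (Sum.inl i)] c
        = (S.F (yx y))^[S.per (ks (Sum.inl i)) * N + ls (Sum.inl i)] (c.2 • ((ζ, 1) : ℂ × ℂ)) := by
          rw [← e]
      _ = _ := by rw [h4, h3, smul_smul]

theorem task (hER : Pool.Agent.W757.RD.StER) :
    Pool.Agent.W757.RD.StNU ∧ Pool.Agent.W757.RD.StALLC :=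
  ⟨NU Pool.Agent.H790R3.RB.LA, ALLC hER Pool.Agent.H790R3.RB.WR⟩

end Pool.Agent.W440.RE.NU
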