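import Mathlib
import Pool.Agent.W757.RD.St
import Pool.Agent.H790R3.RB.Basic

/-! Task RE-ONE (subtask of helper757, MP_8f2e1c_an): every marked cycle attracts a critical point.
Adapted from `Pool.Agent.W757.RC.TONE`. -/

set_option autoImplicit false

open Topology Filter Metric Set MeasureTheory

open Pool.Agent.H790R3.RB (CV hF cr ND wr rt Ix yx yc sp HypTop cr_eq_zero_iff cr_smul_left cr_self)
open Pool.Agent.W757.RD

namespace Pool.Agent.W440.RE.ONE

theorem task (hFAT : Pool.Agent.W757.RD.StFAT) (hLAM : Pool.Agent.W757.RD.StLAM)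
    (hKOE : Pool.Agent.W757.RD.StKOE) (hLIN : Pool.Agent.W757.RD.StLIN)
    (hPOLE : Pool.Agent.W757.RD.StPOLE) : Pool.Agent.W757.RD.StONE := by
  intro d n s S x hx hlam k
  by_contra hcon
  push Not at hcon
  obtain ⟨KK, hKK⟩ := hKOE d n s S
  obtain ⟨N, r, ω, hKN, hL⟩ := hLIN d n s S KK hKK {x} isCompact_singleton (by
    intro y hy
    rw [mem_singleton_iff] at hy
    subst hy
    exact ⟨hx, hlam⟩)
  obtain ⟨B, hB⟩ := hPOLE d n s S {x} isCompact_singleton (by
    intro y hy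
    rw [mem_singleton_iff] at hy
    subst hy
    exact hx)
  obtain ⟨ζ₀, hζ₀, -⟩ := hB x rfl
  have hxN : x ∈ N := hKN rfl
  have hr := hL.hr
  obtain ⟨-, hLAMb, -, -⟩ := hLAM d n s S
  have hlt : ‖S.lam k x‖ < 1 := lt_of_le_of_lt (hLAMb k x hx) S.hθ
  set ψ : ℂ → ℂ := fun w => S.b k x + ω k (x, w) with hψ
  have hcht : ∀ w : ℂ, (ψ w, (1 : ℂ)) = S.cht k x (ω k (x, w)) := fun w => rfl
  have hchne : ∀ z : ℂ, S.cht k x z ≠ 0 := by
    intro z h
    have := congrArg Prod.snd h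
    simp [Sys.cht] at this
  have hωd : DifferentiableOn ℂ (fun w : ℂ => ω k (x, w)) (ball 0 r) := by
    refine (hL.ωd k).comp
      ((differentiable_const x).prodMk differentiable_id).differentiableOn ?_
    intro w hw
    exact ⟨hxN, hw⟩
  have hψd : DifferentiableOn ℂ ψ (ball 0 r) := hωd.const_add _
  have hinj : InjOn ψ (ball 0 r) := by
    intro w hw w' hw' h
    have h1 : ω k (x, w) = ω k (x, w') := by
      simpa [hψ] using h
    have e1 := (hL.ωr k x hxN w (by simpa using hw)).2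
    have e2 := (hL.ωr k x hxN w' (by simpa using hw')).2
    rw [← e1, ← e2, h1]
  have hnd : ND (S.co x) := S.nd x hx
  have hfe : ∀ w ∈ ball (0 : ℂ) r, cr ((hF (S.co x))^[S.per k] (ψ w, 1))
      (ψ (S.lam k x * w), 1) = 0 := by
    intro w hw
    obtain ⟨a, -, h1⟩ := hL.fe k x hxN w (by simpa using hw)
    rw [hcht, hcht]
    have h2 : (hF (S.co x))^[S.per k] (S.cht k x (ω k (x, w))) =
        a • S.cht k x (ω k (x, S.lam k x * w)) := h1
    rw [h2, cr_smul_left, cr_self, mul_zero]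
  have hcrit : ∀ rF : ℝ, ∀ c : ℂ × ℂ, c ≠ 0 → wr (S.co x) c = 0 → ∀ m : ℕ, ∀ w ∈ ball (0 : ℂ) r,
      w ≠ 0 → cr ((hF (S.co x))^[m] c) (ψ w, 1) = 0 →
      ‖S.lam k x‖ ^ (m / S.per k) * rF ≤ ‖w‖ := by
    intro rF c hc hwc m w hw _ hcr
    exfalso
    rw [hcht] at hcr
    have hne : (hF (S.co x))^[m] c ≠ 0 := hnd.iter_ne m hc
    obtain ⟨a, ha, h1⟩ := (cr_eq_zero_iff hne (hchne _)).1 hcr
    exact hcon c hc hwc m ⟨a, ω k (x, w), ha,
      (hL.ωr k x hxN w (by simpa using hw)).1, h1⟩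
  -- the derivative of ψ
  have hder : deriv ψ 0 = 1 := by
    have hb0 : (0 : ℂ) ∈ ball (0 : ℂ) r := by simpa using hr
    have hωa : DifferentiableAt ℂ (fun w : ℂ => ω k (x, w)) 0 :=
      hωd.differentiableAt (isOpen_ball.mem_nhds hb0)
    have h1 : deriv ψ 0 = deriv (fun w : ℂ => ω k (x, w)) 0 := by
      rw [hψ]
      simp
    rw [h1]
    have hK1 := hKK.der k x hx (hlam k)
    have hKd : DifferentiableAt ℂ (fun z => KK k (x, S.cht k x z)) 0 := by
      by_contra hnd'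
      rw [deriv_zero_of_not_differentiableAt hnd'] at hK1
      exact zero_ne_one hK1
    have hω0 : ω k (x, 0) = 0 := hL.ω0 k x hxN
    have hKd' : DifferentiableAt ℂ (fun z => KK k (x, S.cht k x z))
        ((fun w : ℂ => ω k (x, w)) 0) := by
      simp only [hω0]
      exact hKd
    have h2 := deriv_comp (h₂ := fun z => KK k (x, S.cht k x z))
      (h := fun w : ℂ => ω k (x, w)) 0 hKd' hωa
    simp only [hω0] at h2
    rw [hK1, one_mul] at h2
    rw [← h2]
    have h3 : ((fun z => KK k (x, S.cht k x z)) ∘ fun w : ℂ => ω k (x, w))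
        =ᶠ[𝓝 0] fun w => w := by
      filter_upwards [isOpen_ball.mem_nhds hb0] with w hw
      exact (hL.ωr k x hxN w (by simpa using hw)).2
    rw [h3.deriv_eq]
    simp
  obtain ⟨CK, hCK, hF⟩ := hFAT
  have hfin := hF d (S.per k) (S.co x) ψ (S.lam k x) ζ₀ r
    (CK * ‖ψ 0 - ζ₀‖ + 1) S.hd (S.hper _) hnd (S.hinf x hx) hζ₀ hr
    (by positivity) (hlam k) hlt hψd hinj hfe (hcrit _)
  rw [hder, norm_one, one_mul] at hfin
  linarith

end Pool.Agent.W440.RE.ONE
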