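import Mathlib
import Pool.Agent.W757.RD.St
import Pool.Agent.H790R3.RB.Basic

/-! Task RE-OPN (subtask of helper757, MP_8f2e1c_an): the leaf is invariant under small discs.
Adapted from `Pool.Agent.W757.RC.TOPN`. -/

set_option autoImplicit false

open Topology Filter Metric Set MeasureTheory

open Pool.Agent.H790R3.RB (CV hF cr ND wr rt Ix yx yc sp HypTop hF_iter_smul hF_iter_continuous
  cr_eq_zero_iff cr_smul_left cr_self)
open Pool.Agent.W757.RD

namespace Pool.Agent.W440.RE.OPN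

variable {d n s : ℕ} (S : Sys d n s)

/-- the local coordinate -/
noncomputable def loc (k : Fin s) (x : Fin n → ℂ) (p : ℂ × ℂ) : ℂ := p.1 / p.2 - S.b k x

theorem smul_loc (k : Fin s) (x : Fin n → ℂ) (p : ℂ × ℂ)
    (h : p.2 ≠ 0) : p = p.2 • S.cht k x (loc S k x p) := by
  ext
  · simp only [Sys.cht, loc, Prod.smul_fst, smul_eq_mul]; field_simp; ring
  · simp [Sys.cht]

theorem snd_smul_cht (k : Fin s) (x : Fin n → ℂ) (a z : ℂ) :
    (a • S.cht k x z).2 = a := by simp [Sys.cht]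

theorem loc_smul_cht (k : Fin s) (x : Fin n → ℂ) {a : ℂ} (z : ℂ) (ha : a ≠ 0) :
    loc S k x (a • S.cht k x z) = z := by
  simp only [loc, Sys.cht, Prod.smul_fst, Prod.smul_snd, smul_eq_mul, mul_one]
  rw [mul_div_cancel_left₀ _ ha]
  ring

theorem cht_ne_zero (k : Fin s) (x : Fin n → ℂ) (z : ℂ) : S.cht k x z ≠ 0 := by
  intro h
  have := congrArg Prod.snd h
  simp [Sys.cht] at this

theorem loc_cont (k : Fin s) {x : ℂ → Fin n → ℂ}
    {q : ℂ → ℂ × ℂ} (hq : ContinuousAt q 0) (hb : ∀ k, ContinuousAt (fun t => S.b k (x t)) 0)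
    (h : (q 0).2 ≠ 0) : ContinuousAt (fun t => loc S k (x t) (q t)) 0 :=
  (hq.fst.div hq.snd h).sub (hb k)

theorem InC_step {x : Fin n → ℂ} (hx : x ∈ S.U) (k : Fin s) {p : ℂ × ℂ}
    (h : S.InC k x p) : S.InC k x ((S.F x)^[S.per k] p) := by
  obtain ⟨a, z, ha, hz, rfl⟩ := h
  obtain ⟨a', z', ha', hz', he⟩ := S.contr x hx k z hz
  refine ⟨a ^ (d ^ S.per k) * a', z', mul_ne_zero (pow_ne_zero _ ha) ha', ?_, ?_⟩
  · refine lt_of_le_of_lt hz' ?_
    calc S.θ * ‖z‖ ≤ 1 * ‖z‖ := mul_le_mul_of_nonneg_right S.hθ.le (norm_nonneg _)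
      _ = ‖z‖ := one_mul _
      _ < (S.r₀ k) := hz
  · show (hF (S.co x))^[S.per k] (a • ((S.b k x + z, 1) : ℂ × ℂ)) = _
    rw [hF_iter_smul, he, smul_smul]; rfl

theorem Dom_step {x : Fin n → ℂ} {k : Fin s} {p : ℂ × ℂ}
    (h : (x, p) ∈ S.Dom k) : (x, (S.F x)^[S.per k] p) ∈ S.Dom k := by
  obtain ⟨hx, hl, N, hN⟩ := h
  refine ⟨hx, hl, N, ?_⟩
  have h1 := InC_step S hx k hN
  simp only at h1 ⊢
  rw [← Function.iterate_add_apply] at h1 ⊢
  rwa [add_comm]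

theorem fe_iter {KK : Fin s → (Fin n → ℂ) × (ℂ × ℂ) → ℂ} (hK : S.Koe KK)
    {x : Fin n → ℂ} {k : Fin s} {p : ℂ × ℂ} (h : (x, p) ∈ S.Dom k) (L : ℕ) :
    (x, (S.F x)^[S.per k * L] p) ∈ S.Dom k ∧
      KK k (x, (S.F x)^[S.per k * L] p) = S.lam k x ^ L * KK k (x, p) := by
  induction L with
  | zero => simpa using h
  | succ L ih =>
    have e : (S.F x)^[S.per k * (L + 1)] p = (S.F x)^[S.per k] ((S.F x)^[S.per k * L] p) := by
      rw [← Function.iterate_add_apply]; congr 2; ring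
    rw [e]
    refine ⟨Dom_step S ih.1, ?_⟩
    rw [hK.fe k x _ ih.1, ih.2, pow_succ]; ring

theorem task (hLF : Pool.Agent.W757.RD.StLF) : Pool.Agent.W757.RD.StOPN := by
  intro d n s l S KK r N ω e A ks ls L ρ₂ K τ y₀ Fh γ hK hL hlam0 hls hKr hτ hγ hN hleaf hyk hρ hK1
    hcon
  have h0 : (0 : ℂ) ∈ ball (0 : ℂ) τ := mem_ball_self hτ
  have hγc : ContinuousAt γ 0 := (hγ.differentiableAt (isOpen_ball.mem_nhds h0)).continuousAt
  have hxc : ContinuousAt (fun t => yx (γ t)) 0 := by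
    refine tendsto_pi_nhds.2 fun i => ?_
    exact (continuousAt_pi.1 hγc (Sum.inl i))
  have hcc : ∀ i : Pt d, ContinuousAt (fun t => pc (γ t) i) 0 := by
    intro i
    cases i with
    | inl i => exact continuousAt_pi.1 hγc (Sum.inr (Sum.inl i))
    | inr j => exact continuousAt_const
  have hkc : ∀ k, ContinuousAt (fun t => ys (γ t) k) 0 := fun k =>
    continuousAt_pi.1 hγc (Sum.inr (Sum.inr k))
  have hU : yx (γ 0) ∈ S.U := hL.NU hN
  have hUo : IsOpen S.U := S.hU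
  have hco : ContinuousAt (fun t => S.co (yx (γ t))) 0 := by
    have h1 : ContinuousAt S.co (yx (γ 0)) :=
      (S.hco.differentiableAt (hUo.mem_nhds hU)).continuousAt
    exact ContinuousAt.comp (f := fun t => yx (γ t)) h1 hxc
  have hbc : ∀ k, ContinuousAt (fun t => S.b k (yx (γ t))) 0 := by
    intro k
    have h1 : ContinuousAt (S.b k) (yx (γ 0)) :=
      ((S.hb k).differentiableAt (hUo.mem_nhds hU)).continuousAt
    exact ContinuousAt.comp (f := fun t => yx (γ t)) h1 hxc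
  have hitc : ∀ (i : Pt d) (m : ℕ),
      ContinuousAt (fun t => (S.F (yx (γ t)))^[m] (pc (γ t) i, 1)) 0 := by
    intro i m
    have h1 : ContinuousAt (fun t => (S.co (yx (γ t)), ((pc (γ t) i, (1 : ℂ)) : ℂ × ℂ))) 0 :=
      hco.prodMk ((hcc i).prodMk continuousAt_const)
    exact ContinuousAt.comp (f := fun t => (S.co (yx (γ t)), ((pc (γ t) i, (1 : ℂ)) : ℂ × ℂ)))
      (hF_iter_continuous d m).continuousAt h1
  obtain ⟨hl1, hl2, hl3, hl5, hl6, hl7⟩ := id hleaf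
  obtain ⟨r', r'', hr''0, hr''r', hr'r₀, hinv⟩ := hL.inv
  obtain ⟨-, -, hF3⟩ := hLF d n s l S KK r N ω e A ks ls L ρ₂ K y₀ (γ 0) Fh hK hL hlam0 hls hKr hN
    hleaf
  obtain ⟨-, hFh⟩ := hF3 hyk
  -- eventual statements
  have ev1 : ∀ᶠ t in 𝓝 (0 : ℂ), t ∈ ball (0 : ℂ) τ := isOpen_ball.mem_nhds h0
  have ev2 : ∀ᶠ t in 𝓝 (0 : ℂ), yx (γ t) ∈ N := hxc.eventually_mem (hL.No.mem_nhds hN)
  have ev3 : ∀ᶠ t in 𝓝 (0 : ℂ), ∀ k, ys (γ t) k ≠ 0 :=
    eventually_all.2 fun k => (hkc k).eventually_ne (hyk k)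
  have ev4 : ∀ᶠ t in 𝓝 (0 : ℂ), yx (γ t) ∈ ρ₂ := hρ
  have ev5 : ∀ᶠ t in 𝓝 (0 : ℂ), ∀ k, ‖ys (γ t) k‖ < K :=
    eventually_all.2 fun k => ((hkc k).norm).eventually_lt continuousAt_const (hK1 k)
  have ev6 : ∀ᶠ t in 𝓝 (0 : ℂ), ∀ i ∈ A,
      ((S.F (yx (γ t)))^[ls i + S.per (ks i) * L] (pc (γ t) i, 1)).2 ≠ 0 ∧
      ‖loc S (ks i) (yx (γ t))
        ((S.F (yx (γ t)))^[ls i + S.per (ks i) * L] (pc (γ t) i, 1))‖ < r' := by
    rw [eventually_all_finset]
    intro i hi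
    set q : ℂ → ℂ × ℂ := fun t => (S.F (yx (γ t)))^[ls i + S.per (ks i) * L] (pc (γ t) i, 1) with hq
    have hqc : ContinuousAt q 0 := hitc i _
    have hq0 : q 0 ≠ 0 := by
      apply (S.nd _ hU).iter_ne
      intro h
      have := congrArg Prod.snd h
      simp at this
    set w : ℂ := ys (γ 0) (ks i) * (S.lam (ks i) (yx y₀) ^ L * Fh i) with hw
    have hykK : ‖ys (γ 0) (ks i)‖ ≤ K := hl6 (ks i)
    have hwr : ‖w‖ < r := by
      rw [hw, norm_mul]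
      exact lt_of_le_of_lt (mul_le_mul_of_nonneg_right hykK (norm_nonneg _)) (hKr i hi)
    have h7 : cr (q 0) (S.cht (ks i) (yx (γ 0)) (ω (ks i) (yx (γ 0), w))) = 0 := hl7 i hi
    obtain ⟨a, ha, hqa⟩ := (cr_eq_zero_iff hq0 (cht_ne_zero S (ks i) _ _)).1 h7
    have hden : (q 0).2 ≠ 0 := by
      rw [hqa, snd_smul_cht]; exact ha
    have hloc : loc S (ks i) (yx (γ 0)) (q 0) = ω (ks i) (yx (γ 0), w) := by
      rw [hqa]
      exact loc_smul_cht S (ks i) (yx (γ 0)) _ ha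
    have hz0 : ‖loc S (ks i) (yx (γ 0)) (q 0)‖ < r' := by
      rw [hloc]
      exact (hinv (ks i) (yx (γ 0)) hN).1 w hwr
    refine (hqc.snd.eventually_ne hden).and ?_
    exact ((loc_cont S (ks i) hqc hbc hden).norm).eventually_lt continuousAt_const hz0
  have ev := (((((ev1.and ev2).and ev3).and ev4).and ev5).and ev6)
  obtain ⟨τ', hτ', hball⟩ := Metric.eventually_nhds_iff_ball.1 ev
  refine ⟨min τ' τ, lt_min hτ' hτ, min_le_right _ _, ?_⟩
  intro t ht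
  obtain ⟨⟨⟨⟨⟨ht1, ht2⟩, ht3⟩, ht4⟩, ht5⟩, ht6⟩ :=
    hball t (ball_subset_ball (min_le_left _ _) ht)
  obtain ⟨hEr, hGr⟩ := hcon t ht1
  have hlam : ∀ k, S.lam k (yx (γ t)) = S.lam k (yx y₀) := fun k =>
    (hGr (Sum.inr (Sum.inl k))).trans (hl3 k)
  refine ⟨ht2, ht3, ?_, ?_, hlam, hEr, ?_, ?_⟩
  · exact ht4
  · intro i
    exact (hGr (Sum.inl i)).trans (hl2 i)
  · intro k
    exact (ht5 k).le
  · intro i hi
    obtain ⟨hden, hlt⟩ := ht6 i hi
    set x := yx (γ t) with hx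
    set k := ks i with hk
    set p : ℂ × ℂ := (S.F x)^[ls i] (pc (γ t) i, 1) with hp
    set q : ℂ × ℂ := (S.F x)^[ls i + S.per k * L] (pc (γ t) i, 1) with hq
    set z : ℂ := loc S k x q with hz
    have hxU : x ∈ S.U := hL.NU ht2
    have hqp : q = (S.F x)^[S.per k * L] p := by
      rw [hq, hp, ← Function.iterate_add_apply, add_comm]
    have hqz : q = q.2 • S.cht k x z := smul_loc S k x q hden
    have hInq : S.InC k x q := ⟨q.2, z, hden, hlt.trans_le (hr'r₀ k), hqz⟩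
    have hDomp : (x, p) ∈ S.Dom k := ⟨hxU, hL.lam0 x ht2 k, L, by simpa [← hqp] using hInq⟩
    obtain ⟨hDomq, hfe⟩ := fe_iter S hK hDomp L
    rw [← hqp] at hDomq hfe
    have hDomz : (x, S.cht k x z) ∈ S.Dom k := by
      refine ⟨hxU, hL.lam0 x ht2 k, 0, ?_⟩
      simp only [mul_zero, Function.iterate_zero, id_eq]
      exact ⟨1, z, one_ne_zero, hlt.trans_le (hr'r₀ k), by rw [one_smul]⟩
    have hKz : KK k (x, S.cht k x z) = KK k (x, q) := by
      rw [← hK.hom k x (S.cht k x z) hDomz q.2 hden, ← hqz]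
    have hG : KK k (x, p) / ys (γ t) k = Fh i := by
      have h1 := hGr (Sum.inr (Sum.inr ⟨i, hi⟩))
      exact h1.trans (hFh i hi)
    have hKp : KK k (x, p) = ys (γ t) k * Fh i := by
      rw [← hG, mul_div_cancel₀ _ (ht3 k)]
    have hval : KK k (x, S.cht k x z) = ys (γ t) k * (S.lam k (yx y₀) ^ L * Fh i) := by
      rw [hKz, hfe, hKp, hlam k]; ring
    have hykt : ‖ys (γ t) k‖ ≤ K := (ht5 k).le
    have hnr : ‖KK k (x, S.cht k x z)‖ < r := by
      rw [hval, norm_mul]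
      exact lt_of_le_of_lt (mul_le_mul_of_nonneg_right hykt (norm_nonneg _)) (hKr i hi)
    have hω : ω k (x, KK k (x, S.cht k x z)) = z := (hinv k x ht2).2.1 z hlt hnr
    rw [hval] at hω
    rw [hω, hqz, cr_smul_left, cr_self, mul_zero]

end Pool.Agent.W440.RE.OPN
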